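import Pool.Agent.N145.SX.Stm

/-!
The coordinate on the geometric generic fibre of the projection of `X × C` to `X`
(part SX/FIB; generalization of `Pool.Agent.N145.PL.fib_coord`).
-/

set_option autoImplicit false
set_option linter.overlappingInstances false
set_option linter.unusedSectionVars false
set_option linter.unusedVariables false
set_option maxHeartbeats 4000000
set_option synthInstance.maxHeartbeats 400000

open Polynomial FF IsDedekindDomain IntermediateField Module

namespace Pool.Agent.N279.SX

open Pool.Agent.W603.LV Pool.Agent.W619.PQ Pool.Agent.N145.PC Pool.Agent.N145.PL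
open Pool.Agent.N145.SX
open Pool.Agent.R882.GL (trace_fib)

theorem FIB (hclosed : S_CLOSED) : S_FIB := by
  intro K _ _ hess n E C _ hsup hE hK x0 hx0 D0 hD0 B0 hB0 E' _ t ht ξ hξM hξ hZ Ef hEf htr
    Λ F _ _ _ _ _ _ _ _ _ _ _ hFF hBΛ hgenF
  classical
  obtain ⟨hcl1, hcl2, hcl3⟩ := hclosed K n E C hsup hE hK
  have hTB : IsScalarTower E Λ F :=
    IsScalarTower.of_algebraMap_eq fun z => (hBΛ z z.2).symm
  have hΛ0 : CharZero Λ := charZero_of_injective_algebraMap (algebraMap ℂ Λ).injective
  have hBc : CharZero E :=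
    charZero_of_injective_algebraMap (algebraMap ℂ E).injective
  have htransc : ∀ z : K, ¬ IsAlgebraic E z → Transcendental Λ (algebraMap K F z) := by
    intro z hz h
    apply hz
    have h1 : IsAlgebraic E (algebraMap K F z) := h.restrictScalars E
    exact (isAlgebraic_algebraMap_iff (R := E) (algebraMap K F).injective).1 h1
  have hcl' : ∀ z : K, IsIntegral E z → ∃ y : E,
      algebraMap E K y = z := fun z hz =>
    ⟨⟨z, hcl3 z hz.isAlgebraic⟩, rfl⟩
  have hξF := htransc ξ hξ
  obtain ⟨D, hD⟩ := exists_D (k := Λ) hξF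
  have hDne : D ≠ 0 := by
    intro h
    rw [h] at hD
    exact zero_ne_one hD
  -- the derivation of the fibre
  have happ : ∀ l : Fin n, Fin.append t (fun _ : Fin 1 => ξ) l.castSucc = t l := fun l =>
    Fin.append_left t _ l
  have happ' : Fin.append t (fun _ : Fin 1 => ξ) (Fin.last n) = ξ :=
    Fin.append_right t (fun _ : Fin 1 => ξ) 0
  have hlast : ∀ z : K, D (algebraMap K F z) = algebraMap K F (Ef (Fin.last n) z) := by
    intro z
    have h1 := Pool.Agent.W73.PG.PULL.chain (L := F) _ hZ Ef hEf (D.restrictScalars ℂ) z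
    rw [Fin.sum_univ_castSucc, Finset.sum_eq_zero, zero_add] at h1
    · rw [happ'] at h1
      change D (algebraMap K F z) = D (algebraMap K F ξ) * algebraMap K F _ at h1
      rw [hD, one_mul] at h1
      exact h1
    · intro l _
      rw [happ]
      change D (algebraMap K F (t l)) * _ = 0
      rw [← hBΛ (t l) (ht l), Derivation.map_algebraMap, zero_mul]
  obtain ⟨X, hX⟩ : ∃ X, X = algebraMap K F (x0 : K) := ⟨_, rfl⟩
  have hXt : Transcendental Λ X := by
    rw [hX]
    exact htransc _ (hcl1 x0 hx0)
  have hDx : D X ≠ 0 := by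
    intro h
    obtain ⟨w, hw⟩ := const_of_der (k := Λ) hDne h
    apply hXt
    rw [hw]
    exact isAlgebraic_algebraMap w
  -- the places of the fibre
  have hψ : ∀ y : C, algebraMap C F y = algebraMap K F (y : K) := fun y => rfl
  have hgen' : IntermediateField.adjoin Λ (Set.range (algebraMap C F)) = ⊤ := by
    rw [eq_top_iff, ← hgenF, IntermediateField.adjoin_le_iff]
    rintro _ ⟨z, rfl⟩
    have h1 : E ⊔ C ≤ ((IntermediateField.adjoin Λ
        (Set.range (algebraMap C F))).restrictScalars ℂ).comap
          (IsScalarTower.toAlgHom ℂ K F) := by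
      refine sup_le (fun y hy => ?_) (fun y hy => ?_)
      · change algebraMap K F y ∈ IntermediateField.adjoin Λ (Set.range (algebraMap C F))
        rw [← hBΛ y hy]
        exact IntermediateField.algebraMap_mem _ _
      · change algebraMap K F y ∈ IntermediateField.adjoin Λ (Set.range (algebraMap C F))
        exact IntermediateField.subset_adjoin _ _ ⟨⟨y, hy⟩, rfl⟩
    exact h1 (by rw [hsup]; trivial)
  -- the traces
  obtain ⟨FE, hFE⟩ : ∃ FE : IntermediateField Λ F,
    FE = IntermediateField.adjoin Λ (algebraMap K F '' E') := ⟨_, rfl⟩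
  obtain ⟨hfin, htrace⟩ := trace_fib (F := F) hcl' hgenF E' FE hFE
  have hessF : Algebra.EssFiniteType Λ F := hFF.ess
  have hessE : Algebra.EssFiniteType Λ FE := Pool.Agent.TH466.QG.ess_below (K := F)
  have htrE : Algebra.trdeg Λ FE = 1 := by
    have h1 := trdeg_add_eq Λ FE (A := F)
    have h2 : Algebra.trdeg FE F = 0 := trdeg_eq_zero
    rw [h2, add_zero, hFF.trdeg] at h1
    exact h1
  have hFFE : IsFF Λ FE := ⟨hessE, htrE⟩
  have hmemFE : ∀ e : K, e ∈ E' → algebraMap K F e ∈ FE := by
    intro e he
    rw [hFE]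
    exact IntermediateField.subset_adjoin _ _ ⟨e, he, rfl⟩
  obtain ⟨B', hB'⟩ : ∃ B' : Set (Place Λ F),
    B' = Pool.Agent.N145.PL.above (k := ℂ) (F0 := C) (Λ := Λ) (E := F) B0 := ⟨_, rfl⟩
  have hzero : ∀ g ∈ HL D B', Algebra.trace FE F g = 0 := by
    intro g hg
    by_cases hg0 : g = 0
    · rw [hg0, map_zero]
    have hbc := Pool.Agent.N145.PL.base ℂ C Λ F hgen'
      (fun y hy => htransc _ (hcl1 y hy)) x0 hx0 D0 hD0 B0 hB0
      ((D X)⁻¹ • D) (by
        rw [Derivation.smul_apply, smul_eq_mul, hψ, ← hX]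
        exact inv_mul_cancel₀ hDx) (g / D X) (by
        intro Q
        right
        rw [vo_smul Q hDne (inv_ne_zero hDx), Q.ord_inv, Q.ord_div hg0 hDx, ← hB']
        have := (hg Q).resolve_left hg0
        linarith)
    have h9 : ∀ y : F, y ∈ Submodule.span Λ (algebraMap C F '' (HL D0 B0 : Set C)) →
        Algebra.trace FE F (D X * y) = 0 := by
      intro y hy
      induction hy using Submodule.span_induction with
      | zero => rw [mul_zero, map_zero]
      | add u v _ _ hu hv => rw [mul_add, map_add, hu, hv, add_zero]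
      | smul a u _ hu =>
        have h10 : D X * a • u = (algebraMap Λ FE a) • (D X * u) := by
          rw [Algebra.smul_def, Algebra.smul_def, ← IsScalarTower.algebraMap_apply Λ FE F]
          ring
        rw [h10, map_smul, hu, smul_zero]
      | mem y hy =>
        obtain ⟨w, hw, rfl⟩ := hy
        apply Subtype.ext
        have h10 : D X * algebraMap C F w =
            algebraMap K F (Ef (Fin.last n) (x0 : K) * (w : K)) := by
          rw [hψ, hX, hlast, map_mul]
        rw [h10, htrace, htr w hw]
        simp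
    have h10 := h9 _ hbc
    rwa [mul_div_cancel₀ _ hDx] at h10
  obtain ⟨s, hs, hsB⟩ := Pool.Agent.N145.PL.curve Λ FE F D ⟨algebraMap K F ξ, hmemFE ξ hξM⟩ hD B' hzero
  have hsF : Transcendental Λ ((s : FE) : F) := by
    intro h
    have h1 : IsAlgebraic Λ s :=
      (isAlgebraic_algebraMap_iff (R := Λ) (algebraMap FE F).injective).1 h
    have h2 : Algebra.IsAlgebraic Λ (IntermediateField.adjoin Λ {s}) :=
      IntermediateField.isAlgebraic_adjoin_simple h1.isIntegral
    have h3 : IsAlgebraic Λ (⟨algebraMap K F ξ, hmemFE ξ hξM⟩ : FE) := by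
      have h4 : (⟨algebraMap K F ξ, hmemFE ξ hξM⟩ : FE) ∈ IntermediateField.adjoin Λ {s} := by
        rw [hs]
        trivial
      have h5 := h2.isAlgebraic ⟨_, h4⟩
      exact (isAlgebraic_algebraMap_iff (R := Λ)
        (algebraMap (IntermediateField.adjoin Λ {s}) FE).injective).2 h5
    exact hξF ((isAlgebraic_algebraMap_iff (R := Λ) (algebraMap FE F).injective).2 h3)
  refine ⟨((s : FE) : F), hsF, fun e he => ?_, ?_⟩
  · have h1 : (⟨algebraMap K F e, hmemFE _ he⟩ : FE) ∈ IntermediateField.adjoin Λ {s} := by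
      rw [hs]
      trivial
    have h2 : (IntermediateField.adjoin Λ {s}).map FE.val =
        IntermediateField.adjoin Λ {((s : FE) : F)} := by
      rw [IntermediateField.adjoin_map, Set.image_singleton]
      rfl
    rw [← h2]
    exact ⟨_, h1, rfl⟩
  · rintro Q ⟨P, hP, e, he, hv⟩
    refine hsB Q ?_
    rw [hB']
    exact ⟨P, hP, e, he, hv⟩

end Pool.Agent.N279.SX
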